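import Pool.Agent.H742Z.GP.Defs2

set_option autoImplicit false

open scoped ENNReal
open MeasureTheory ProbabilityTheory Filter Topology Set

namespace Pool.Agent.H742Z.GP

universe u

namespace Sound

variable {α : Type}

def RO (R : α → α → Prop) (x e : α) : Option α → Option α → Prop
  | some a, some b => R a b
  | none, some b => b = x ∨ b = e
  | some a, none => a = x ∨ a = e
  | none, none => False

theorem RO_symm {R : α → α → Prop} (hs : ∀ x y, R x y → R y x) (x e : α) :
    ∀ a b, RO R x e a b → RO R x e b a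
  | some _, some _, h => hs _ _ h
  | none, some _, h => h
  | some _, none, h => h
  | none, none, h => h

theorem chain_rev {β : Type} {T : β → β → Prop} (hs : ∀ x y, T x y → T y x) {l : List β}
    (h : List.IsChain T l) : List.IsChain T l.reverse := by
  rw [List.isChain_reverse]
  exact h.imp fun a b hab => hs _ _ hab

abbrev Str (α : Type) := α × List (Option α) × α

def toL (t : Str α) : List (Option α) := some t.1 :: (t.2.1 ++ [some t.2.2])

structure Inv (T : Option α → Option α → Prop) (Q O : Set α) (S : List (Str α)) (A B : Set α) :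
    Prop where
  nd : (S.flatMap toL).Nodup
  ch : ∀ t ∈ S, List.IsChain T (toL t)
  nn : none ∈ S.flatMap toL
  en : ∀ t ∈ S, t.1 ∈ A ∧ t.2.2 ∈ A
  out : ∀ u, u ∉ Q → (some u ∈ S.flatMap toL ↔ u ∈ O)
  inn : ∀ t ∈ S, ∀ z ∈ Q, some z ∈ t.2.1 → z ∈ B

variable {T : Option α → Option α → Prop} {Q O A B : Set α}

theorem Inv.perm {S S' : List (Str α)} (h : Inv T Q O S A B) (p : S.Perm S') :
    Inv T Q O S' A B := by
  have pf : (S.flatMap toL).Perm (S'.flatMap toL) := p.flatMap_right _
  exact ⟨pf.nodup_iff.1 h.nd, fun t ht => h.ch t (p.mem_iff.2 ht), pf.mem_iff.1 h.nn,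
    fun t ht => h.en t (p.mem_iff.2 ht), fun u hu => pf.mem_iff.symm.trans (h.out u hu),
    fun t ht => h.inn t (p.mem_iff.2 ht)⟩

theorem toL_rev (a b : α) (m : List (Option α)) : toL (b, m.reverse, a) = (toL (a, m, b)).reverse := by
  simp [toL]

theorem Inv.rev (hs : ∀ x y, T x y → T y x) {a b : α} {m : List (Option α)} {S : List (Str α)}
    (h : Inv T Q O ((a, m, b) :: S) A B) : Inv T Q O ((b, m.reverse, a) :: S) A B := by
  have pf : (((a, m, b) :: S).flatMap toL).Perm (((b, m.reverse, a) :: S).flatMap toL) := by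
    rw [List.flatMap_cons, List.flatMap_cons, toL_rev]
    exact (List.reverse_perm _).symm.append_right _
  refine ⟨pf.nodup_iff.1 h.nd, ?_, pf.mem_iff.1 h.nn, ?_,
    fun u hu => pf.mem_iff.symm.trans (h.out u hu), ?_⟩
  · intro t ht
    rcases List.mem_cons.1 ht with rfl | ht
    · rw [toL_rev]; exact chain_rev hs (h.ch _ List.mem_cons_self)
    · exact h.ch t (List.mem_cons_of_mem _ ht)
  · intro t ht
    rcases List.mem_cons.1 ht with rfl | ht
    · exact (h.en _ List.mem_cons_self).symm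
    · exact h.en t (List.mem_cons_of_mem _ ht)
  · intro t ht z hz hm
    rcases List.mem_cons.1 ht with rfl | ht
    · exact h.inn _ List.mem_cons_self z hz (List.mem_reverse.1 hm)
    · exact h.inn t (List.mem_cons_of_mem _ ht) z hz hm

theorem Inv.front (hs : ∀ x y, T x y → T y x) {S : List (Str α)} (h : Inv T Q O S A B)
    {t : Str α} (ht : t ∈ S) {z : α} (hz : t.1 = z ∨ t.2.2 = z) :
    ∃ a m S', Inv T Q O ((a, m, z) :: S') A B := by
  classical
  obtain ⟨a, m, b⟩ := t
  have h1 := h.perm (List.perm_cons_erase ht)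
  rcases hz with rfl | rfl
  · exact ⟨_, _, _, h1.rev hs⟩
  · exact ⟨_, _, _, h1⟩

theorem Inv.mono {S : List (Str α)} (h : Inv T Q O S A B) {A' B' : Set α}
    (hA : ∀ t ∈ S, (t.1 ∈ A → t.1 ∈ A') ∧ (t.2.2 ∈ A → t.2.2 ∈ A')) (hB : B ⊆ B') :
    Inv T Q O S A' B' :=
  ⟨h.nd, h.ch, h.nn, fun t ht => ⟨(hA t ht).1 (h.en t ht).1, (hA t ht).2 (h.en t ht).2⟩, h.out,
    fun t ht z hz hm => hB (h.inn t ht z hz hm)⟩

theorem Inv.used {S : List (Str α)} (h : Inv T Q O S A B) {z : α} (hz : z ∈ Q)
    (hu : some z ∈ S.flatMap toL) : (∃ t ∈ S, t.1 = z ∨ t.2.2 = z) ∨ z ∈ B := by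
  obtain ⟨t, ht, hm⟩ := List.mem_flatMap.1 hu
  simp only [toL, List.mem_cons, List.mem_append, Option.some.injEq, List.not_mem_nil,
    or_false] at hm
  rcases hm with h1 | h1 | h1
  · exact Or.inl ⟨t, ht, Or.inl h1.symm⟩
  · exact Or.inr (h.inn t ht z hz h1)
  · exact Or.inl ⟨t, ht, Or.inr h1.symm⟩

theorem mem1 (t : Str α) : some t.1 ∈ toL t := by simp [toL]
theorem mem2 (t : Str α) : some t.2.2 ∈ toL t := by simp [toL]

theorem Inv.ne {a x : α} {m : List (Option α)} {S : List (Str α)}
    (h : Inv T Q O ((a, m, x) :: S) A B) :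
    a ≠ x ∧ ∀ t ∈ S, t.1 ≠ x ∧ t.2.2 ≠ x ∧ t.1 ≠ a ∧ t.2.2 ≠ a := by
  have nd := h.nd
  rw [List.flatMap_cons, List.nodup_append] at nd
  obtain ⟨n1, _, n3⟩ := nd
  constructor
  · rintro rfl
    simp [toL] at n1
  · intro t ht
    have a1 := n3 _ (mem2 (a, m, x)) _ (List.mem_flatMap.2 ⟨t, ht, mem1 t⟩)
    have a2 := n3 _ (mem2 (a, m, x)) _ (List.mem_flatMap.2 ⟨t, ht, mem2 t⟩)
    have a3 := n3 _ (mem1 (a, m, x)) _ (List.mem_flatMap.2 ⟨t, ht, mem1 t⟩)
    have a4 := n3 _ (mem1 (a, m, x)) _ (List.mem_flatMap.2 ⟨t, ht, mem2 t⟩)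
    exact ⟨fun e => a1 (by rw [e]), fun e => a2 (by rw [e]), fun e => a3 (by rw [e]),
      fun e => a4 (by rw [e])⟩

theorem Inv.app {a x z : α} {m : List (Option α)} {S : List (Str α)}
    (h : Inv T Q O ((a, m, x) :: S) A B) (hz : z ∈ Q)
    (hu : some z ∉ ((a, m, x) :: S).flatMap toL) (hT : T (some x) (some z)) {A' B' : Set α}
    (hA : A \ {x} ⊆ A') (hzA : z ∈ A') (hB : B ⊆ B') (hx : x ∈ B') :
    Inv T Q O ((a, m ++ [some x], z) :: S) A' B' := by
  have e : toL (a, m ++ [some x], z) = toL (a, m, x) ++ [some z] := by simp [toL]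
  have pf : (((a, m ++ [some x], z) :: S).flatMap toL).Perm
      (some z :: ((a, m, x) :: S).flatMap toL) := by
    rw [List.flatMap_cons, List.flatMap_cons, e, List.append_assoc]
    exact List.perm_middle
  obtain ⟨n1, n2⟩ := h.ne
  refine ⟨pf.nodup_iff.2 (List.nodup_cons.2 ⟨hu, h.nd⟩), ?_,
    pf.mem_iff.2 (List.mem_cons_of_mem _ h.nn), ?_, ?_, ?_⟩
  · intro t ht
    rcases List.mem_cons.1 ht with rfl | ht
    · rw [e, List.isChain_append]
      refine ⟨h.ch _ List.mem_cons_self, List.isChain_singleton _, ?_⟩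
      intro p hp q hq
      have hp' : p = some x := by
        simp only [toL, ← List.cons_append, List.getLast?_append, List.getLast?_singleton,
          Option.some_or, Option.mem_def, Option.some.injEq] at hp
        exact hp.symm
      have hq' : q = some z := by simpa using hq.symm
      rw [hp', hq']; exact hT
    · exact h.ch t (List.mem_cons_of_mem _ ht)
  · intro t ht
    rcases List.mem_cons.1 ht with rfl | ht
    · exact ⟨hA ⟨(h.en _ List.mem_cons_self).1, n1⟩, hzA⟩
    · exact ⟨hA ⟨(h.en t (List.mem_cons_of_mem _ ht)).1, (n2 t ht).1⟩,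
        hA ⟨(h.en t (List.mem_cons_of_mem _ ht)).2, (n2 t ht).2.1⟩⟩
  · intro u hu'
    rw [pf.mem_iff, List.mem_cons, ← h.out u hu']
    constructor
    · rintro (e1 | e1)
      · exact absurd (Option.some.inj e1 ▸ hz) hu'
      · exact e1
    · exact Or.inr
  · intro t ht y hy hm
    rcases List.mem_cons.1 ht with rfl | ht
    · rcases List.mem_append.1 hm with hm | hm
      · exact hB (h.inn _ List.mem_cons_self y hy hm)
      · have : y = x := by simpa using hm
        exact this ▸ hx
    · exact hB (h.inn t (List.mem_cons_of_mem _ ht) y hy hm)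

theorem Inv.join {a x z b : α} {m m' : List (Option α)} {S : List (Str α)}
    (h : Inv T Q O ((a, m, x) :: (z, m', b) :: S) A B) (hT : T (some x) (some z))
    {A' B' : Set α} (hA : A \ {x} ⊆ A') (hB : B ⊆ B') (hx : x ∈ B') (hz : z ∈ B') :
    Inv T Q O ((a, m ++ some x :: some z :: m', b) :: S) A' B' := by
  have e : toL (a, m ++ some x :: some z :: m', b) = toL (a, m, x) ++ toL (z, m', b) := by
    simp [toL]
  have pf : ((a, m ++ some x :: some z :: m', b) :: S).flatMap toL =
      ((a, m, x) :: (z, m', b) :: S).flatMap toL := by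
    rw [List.flatMap_cons, List.flatMap_cons, List.flatMap_cons, e, List.append_assoc]
  obtain ⟨n1, n2⟩ := h.ne
  have m2 : (z, m', b) ∈ (a, m, x) :: (z, m', b) :: S :=
    List.mem_cons_of_mem _ List.mem_cons_self
  have m3 : ∀ t ∈ S, t ∈ (a, m, x) :: (z, m', b) :: S := fun t ht =>
    List.mem_cons_of_mem _ (List.mem_cons_of_mem _ ht)
  refine ⟨pf ▸ h.nd, ?_, pf ▸ h.nn, ?_, pf ▸ h.out, ?_⟩
  · intro t ht
    rcases List.mem_cons.1 ht with rfl | ht
    · rw [e, List.isChain_append]
      refine ⟨h.ch _ List.mem_cons_self, h.ch _ m2, ?_⟩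
      intro p hp q hq
      have hp' : p = some x := by
        simp only [toL, ← List.cons_append, List.getLast?_append, List.getLast?_singleton,
          Option.some_or, Option.mem_def, Option.some.injEq] at hp
        exact hp.symm
      have hq' : q = some z := by simpa [toL] using hq.symm
      rw [hp', hq']; exact hT
    · exact h.ch t (m3 t ht)
  · intro t ht
    rcases List.mem_cons.1 ht with rfl | ht
    · exact ⟨hA ⟨(h.en _ List.mem_cons_self).1, n1⟩,
        hA ⟨(h.en _ m2).2, (n2 _ List.mem_cons_self).2.1⟩⟩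
    · exact ⟨hA ⟨(h.en t (m3 t ht)).1, (n2 t (List.mem_cons_of_mem _ ht)).1⟩,
        hA ⟨(h.en t (m3 t ht)).2, (n2 t (List.mem_cons_of_mem _ ht)).2.1⟩⟩
  · intro t ht y hy hm
    rcases List.mem_cons.1 ht with rfl | ht
    · simp only [List.mem_append, List.mem_cons, Option.some.injEq] at hm
      rcases hm with hm | rfl | rfl | hm
      · exact hB (h.inn _ List.mem_cons_self y hy hm)
      · exact hx
      · exact hz
      · exact hB (h.inn _ m2 y hy hm)
    · exact hB (h.inn t (m3 t ht) y hy hm)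

theorem Inv.link (hs : ∀ x y, T x y → T y x) {a x z : α} {m : List (Option α)}
    {S : List (Str α)} (h : Inv T Q O ((a, m, x) :: S) A B) (hT : T (some x) (some z))
    (hzx : z ≠ x) (hza : z ≠ a) (he : ∃ t ∈ (a, m, x) :: S, t.1 = z ∨ t.2.2 = z)
    {A' B' : Set α} (hA : A \ {x} ⊆ A') (hB : B ⊆ B') (hx : x ∈ B') (hz : z ∈ B') :
    ∃ S', Inv T Q O S' A' B' := by
  classical
  obtain ⟨t, ht, he⟩ := he
  rcases List.mem_cons.1 ht with rfl | ht
  · rcases he with he | he
    · exact absurd he.symm hza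
    · exact absurd he.symm hzx
  obtain ⟨c, m', b⟩ := t
  have h1 := h.perm ((List.perm_cons_erase ht).cons _)
  rcases he with rfl | rfl
  · exact ⟨_, h1.join hT hA hB hx hz⟩
  · have h2 := ((h1.perm (List.Perm.swap _ _ _)).rev hs).perm (List.Perm.swap _ _ _)
    exact ⟨_, h2.join hT hA hB hx hz⟩

theorem step {R : α → α → Prop} (hs : ∀ x y, R x y → R y x) (hi : ∀ x, ¬ R x x) {x0 e : α}
    {p p' : Set α × Set α} (hm : Mv R Q p p') (h : ∃ S, Inv (RO R x0 e) Q O S p.1 p.2) :
    ∃ S, Inv (RO R x0 e) Q O S p'.1 p'.2 := by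
  obtain ⟨S, h⟩ := h
  have hsO := RO_symm hs x0 e
  cases hm with
  | weak hA hB => exact ⟨S, h.mono (fun t _ => ⟨fun a => hA a, fun a => hA a⟩) hB⟩
  | @move A B x z hxz hzQ hzA hzB =>
    by_cases hx : ∃ t ∈ S, t.1 = x ∨ t.2.2 = x
    · obtain ⟨t, ht, he⟩ := hx
      obtain ⟨a, m, S', h1⟩ := h.front hsO ht he
      refine ⟨_, h1.app hzQ (fun hu => ?_) hxz subset_union_left (Or.inr rfl) subset_union_left
        (Or.inr rfl)⟩
      rcases h1.used hzQ hu with ⟨t, ht, rfl | rfl⟩ | hB
      · exact hzA (h1.en t ht).1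
      · exact hzA (h1.en t ht).2
      · exact hzB hB
    · push Not at hx
      exact ⟨S, h.mono (fun t ht => ⟨fun a => Or.inl ⟨a, (hx t ht).1⟩,
        fun a => Or.inl ⟨a, (hx t ht).2⟩⟩) subset_union_left⟩
  | @gad A B x z₁ z₂ h1 h2 hne q1 q2 b1 b2 =>
    by_cases hx : ∃ t ∈ S, t.1 = x ∨ t.2.2 = x
    · obtain ⟨t, ht, he⟩ := hx
      obtain ⟨a, m, S', hI⟩ := h.front hsO ht he
      by_cases u1 : some z₁ ∈ ((a, m, x) :: S').flatMap toL
      · by_cases u2 : some z₂ ∈ ((a, m, x) :: S').flatMap toL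
        · have e1 := (hI.used q1 u1).resolve_right b1
          have e2 := (hI.used q2 u2).resolve_right b2
          by_cases ha : z₁ = a
          · exact hI.link hsO h2 (fun e => hi x (e ▸ h2)) (fun e => hne (ha.trans e.symm)) e2
              subset_union_left subset_union_left (Or.inr (by simp)) (Or.inr (by simp))
          · exact hI.link hsO h1 (fun e => hi x (e ▸ h1)) ha e1
              subset_union_left subset_union_left (Or.inr (by simp)) (Or.inr (by simp))
        · exact ⟨_, hI.app q2 u2 h2 subset_union_left (Or.inr (by simp)) subset_union_left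
            (Or.inr (by simp))⟩
      · exact ⟨_, hI.app q1 u1 h1 subset_union_left (Or.inr (by simp)) subset_union_left
          (Or.inr (by simp))⟩
    · push Not at hx
      exact ⟨S, h.mono (fun t ht => ⟨fun a => Or.inl ⟨a, (hx t ht).1⟩,
        fun a => Or.inl ⟨a, (hx t ht).2⟩⟩) subset_union_left⟩

theorem grow {R : α → α → Prop} {p p' : Set α × Set α} (hm : Mv R Q p p') :
    p.1 ∪ p.2 ⊆ p'.1 ∪ p'.2 := by
  cases hm with
  | weak hA hB => exact union_subset_union hA hB
  | @move A B x z _ _ _ _ =>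
    rintro y (hy | hy)
    · by_cases e : y = x
      · exact Or.inr (Or.inr e)
      · exact Or.inl (Or.inl ⟨hy, e⟩)
    · exact Or.inr (Or.inl hy)
  | @gad A B x z₁ z₂ _ _ _ _ _ _ _ =>
    rintro y (hy | hy)
    · by_cases e : y = x
      · exact Or.inr (Or.inr (Or.inl e))
      · exact Or.inl (Or.inl ⟨hy, e⟩)
    · exact Or.inr (Or.inl hy)

theorem lift_some {R : α → α → Prop} {x e : α} : ∀ (L : List (Option α)), none ∉ L →
    ∃ L0 : List α, L = L0.map some
  | [], _ => ⟨[], rfl⟩
  | none :: _, h => absurd List.mem_cons_self h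
  | some a :: L, h => by
    obtain ⟨L0, rfl⟩ := lift_some (R := R) (x := x) (e := e) L
      (fun h' => h (List.mem_cons_of_mem _ h'))
    exact ⟨a :: L0, rfl⟩

theorem chain_map {R : α → α → Prop} {x e : α} {L : List α} :
    List.IsChain (RO R x e) (L.map some) ↔ List.IsChain R L := by
  rw [List.isChain_map]; rfl

theorem final {R : α → α → Prop} (hs : ∀ x y, R x y → R y x) {x e : α} {S : List (Str α)}
    (h : Inv (RO R x e) Q O S A B) {z₁ z₂ : α} (hA : A ⊆ {z₁, z₂}) (hz : R z₁ z₂) :
    ∃ l' : List α, (x :: l').Nodup ∧ List.IsChain R (x :: l') ∧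
      (∀ u, u ∉ Q → (u ∈ x :: l' ↔ u ∈ O)) ∧ ∀ u ∈ l', u ∈ Q → u ∈ A ∪ B := by
  obtain ⟨⟨a, m, b⟩, ht, hn⟩ := List.mem_flatMap.1 h.nn
  classical
  have h1 := h.perm (List.perm_cons_erase ht)
  obtain ⟨n1, n2⟩ := h1.ne
  have ea := hA (h.en _ ht).1
  have eb := hA (h.en _ ht).2
  simp only [mem_insert_iff, mem_singleton_iff] at ea eb
  have hnil : S.erase (a, m, b) = [] := by
    rw [List.eq_nil_iff_forall_not_mem]
    intro t ht'
    have et := hA (h1.en t (List.mem_cons_of_mem _ ht')).1
    simp only [mem_insert_iff, mem_singleton_iff] at et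
    have := n2 t ht'
    grind
  rw [hnil] at h1
  have hba : R b a := by
    rcases ea with rfl | rfl <;> rcases eb with rfl | rfl
    · exact absurd rfl n1
    · exact hs _ _ hz
    · exact hz
    · exact absurd rfl n1
  have hm : none ∈ m := by simpa [toL] using hn
  obtain ⟨P, S', rfl⟩ := List.append_of_mem hm
  have nd := h1.nd
  have ch := h1.ch _ List.mem_cons_self
  have out := h1.out
  have e0 : toL (a, P ++ none :: S', b) = (some a :: P) ++ none :: (S' ++ [some b]) := by
    simp [toL]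
  rw [List.flatMap_cons, List.flatMap_nil, List.append_nil, e0] at nd out
  rw [e0] at ch
  have nd' := List.nodup_cons.1 (List.perm_middle.nodup_iff.1 nd)
  obtain ⟨P0, hP⟩ := lift_some (R := R) (x := x) (e := e) P
    (fun h => nd'.1 (by simp [h]))
  obtain ⟨S0, hS⟩ := lift_some (R := R) (x := x) (e := e) S'
    (fun h => nd'.1 (by simp [h]))
  subst hP hS
  have e1 : some a :: P0.map some = (a :: P0).map some := rfl
  have e2 : S0.map some ++ [some b] = (S0 ++ [b]).map some := by simp
  rw [e1, e2] at nd' ch out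
  rw [List.isChain_append, List.isChain_cons] at ch
  obtain ⟨c1, ⟨c2, c3⟩, c4⟩ := ch
  rw [chain_map] at c1 c3
  have nd2 : ((a :: P0) ++ (S0 ++ [b])).Nodup := by
    have := nd'.2
    rw [← List.map_append] at this
    exact this.of_map _
  have inn : ∀ u ∈ (a :: P0) ++ (S0 ++ [b]), u ∈ Q → u ∈ A ∪ B := by
    intro u hu hq
    have en := h1.en _ List.mem_cons_self
    have := h1.inn _ List.mem_cons_self u hq
    simp only [List.mem_append, List.mem_cons, List.mem_map, Option.some.injEq, exists_eq_right,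
      reduceCtorEq, false_or, List.not_mem_nil, or_false] at hu this
    rcases hu with (rfl | hu) | hu | rfl
    · exact Or.inl en.1
    · exact Or.inr (this (Or.inl hu))
    · exact Or.inr (this (Or.inr hu))
    · exact Or.inl en.2
  have out' : ∀ u, u ∉ Q → (u ∈ (a :: P0) ++ (S0 ++ [b]) ↔ u ∈ O) := by
    intro u hu
    rw [← out u hu]
    simp
  have key : ∀ L : List α, L.Perm ((a :: P0) ++ (S0 ++ [b])) → List.IsChain R L →
      L.head? = some x → ∃ l' : List α, (x :: l').Nodup ∧ List.IsChain R (x :: l') ∧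
      (∀ u, u ∉ Q → (u ∈ x :: l' ↔ u ∈ O)) ∧ ∀ u ∈ l', u ∈ Q → u ∈ A ∪ B := by
    intro L p c hd
    obtain ⟨l', rfl⟩ := List.head?_eq_some_iff.1 hd
    exact ⟨l', p.nodup_iff.2 nd2, c, fun u hu => p.mem_iff.trans (out' u hu),
      fun u hu => inn u (p.mem_iff.1 (List.mem_cons_of_mem _ hu))⟩
  have cyc : List.IsChain R ((S0 ++ [b]) ++ (a :: P0)) := by
    rw [List.isChain_append]
    refine ⟨c3, c1, ?_⟩
    intro p hp q hq
    have hp' : p = b := by simpa using hp.symm
    have hq' : q = a := by simpa using hq.symm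
    rw [hp', hq']; exact hba
  obtain ⟨f, hf⟩ : ∃ f, (S0 ++ [b]).head? = some f := by cases S0 <;> simp
  obtain ⟨g, hg⟩ : ∃ g, (a :: P0).getLast? = some g := ⟨_, List.getLast?_cons⟩
  have rf : f = x ∨ f = e := c2 (some f) (by rw [List.head?_map, hf]; rfl)
  have rg : g = x ∨ g = e := c4 (some g) (by rw [List.getLast?_map, hg]; rfl) none rfl
  have fg : g ≠ f := (List.nodup_append.1 nd2).2.2 g (List.mem_of_getLast? hg) f
    (List.mem_of_head? hf)
  by_cases hfx : f = x
  · refine key _ List.perm_append_comm cyc ?_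
    rw [List.head?_append, hf, hfx]; rfl
  · have hgx : g = x := by grind
    refine key _ ((List.reverse_perm _).trans List.perm_append_comm) (chain_rev hs cyc) ?_
    rw [List.head?_reverse, List.getLast?_append, hg, hgx]; rfl

structure Weak (T : Option α → Option α → Prop) (Q O : Set α) (S : List (List (Option α))) :
    Prop where
  nd : S.flatten.Nodup
  ch : ∀ s ∈ S, List.IsChain T s
  nn : none ∈ S.flatten
  hd : ∀ s ∈ S, ∀ p ∈ s.head?, ∃ z ∈ Q, p = some z
  lt : ∀ s ∈ S, ∀ p ∈ s.getLast?, ∃ z ∈ Q, p = some z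
  out : ∀ u, u ∉ Q → (some u ∈ S.flatten ↔ u ∈ O)

theorem clean {Bd : Set α}
    (hT : ∀ z ∈ Q, z ∉ Bd → ∀ p, (T p (some z) ∨ T (some z) p) → ∃ y ∈ Q, p = some y) :
    ∀ (n : ℕ) (S : List (List (Option α))), S.flatten.length = n → Weak T Q O S →
      ∃ S', Weak T Q O S' ∧ ∀ z ∈ Q, some z ∈ S'.flatten → z ∈ Bd := by
  classical
  intro n
  induction n using Nat.strong_induction_on with
  | _ n ih =>
    intro S hn h
    by_cases hb : ∀ z ∈ Q, some z ∈ S.flatten → z ∈ Bd
    · exact ⟨S, h, hb⟩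
    push Not at hb
    obtain ⟨z, hz, hu, hzb⟩ := hb
    obtain ⟨s, hs, hzs⟩ := List.mem_flatten.1 hu
    obtain ⟨P, U, rfl⟩ := List.append_of_mem hzs
    have p0 := List.perm_cons_erase hs
    set S1 := S.erase (P ++ some z :: U) with hS1
    have pf : S.flatten.Perm (some z :: (P :: U :: S1).flatten) := by
      refine p0.flatten.trans ?_
      simp only [List.flatten_cons, List.append_assoc, List.cons_append]
      exact List.perm_middle
    have hc := h.ch _ hs
    rw [List.isChain_append, List.isChain_cons] at hc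
    obtain ⟨c1, ⟨c2, c3⟩, c4⟩ := hc
    have sub : ∀ s ∈ S1, s ∈ S := fun s hs => List.mem_of_mem_erase hs
    refine ih (P :: U :: S1).flatten.length (by rw [← hn, pf.length_eq]; simp) _ rfl
      ⟨(List.nodup_cons.1 (pf.nodup_iff.1 h.nd)).2, ?_, ?_, ?_, ?_, ?_⟩
    · intro s hs
      simp only [List.mem_cons] at hs
      rcases hs with rfl | rfl | hs
      · exact c1
      · exact c3
      · exact h.ch s (sub s hs)
    · simpa using pf.mem_iff.1 h.nn
    · intro s hs' p hp
      simp only [List.mem_cons] at hs'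
      rcases hs' with rfl | rfl | hs'
      · refine h.hd _ hs p ?_
        rw [List.head?_append, Option.mem_def.1 hp]; rfl
      · exact hT z hz hzb p (Or.inr (c2 p hp))
      · exact h.hd s (sub s hs') p hp
    · intro s hs' p hp
      simp only [List.mem_cons] at hs'
      rcases hs' with rfl | rfl | hs'
      · exact hT z hz hzb p (Or.inl (c4 p hp _ rfl))
      · refine h.lt _ hs p ?_
        rw [← List.singleton_append, ← List.append_assoc, List.getLast?_append,
          Option.mem_def.1 hp]; rfl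
      · exact h.lt s (sub s hs') p hp
    · intro u hu
      rw [← h.out u hu, pf.mem_iff, List.mem_cons]
      constructor
      · exact Or.inr
      · rintro (e1 | e1)
        · exact absurd (Option.some.inj e1 ▸ hz) hu
        · exact e1

theorem strong : ∀ (S : List (List (Option α))),
    (∀ s ∈ S, ∀ p ∈ s.head?, ∃ z ∈ Q, p = some z) →
    (∀ s ∈ S, ∀ p ∈ s.getLast?, ∃ z ∈ Q, p = some z) →
    ∃ S' : List (Str α), (S'.flatMap toL).Sublist S.flatten ∧
      (∀ t ∈ S', toL t ∈ S ∧ t.1 ∈ Q ∧ t.2.2 ∈ Q) ∧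
      ∀ p ∈ S.flatten, p ∈ S'.flatMap toL ∨ ∃ z ∈ Q, p = some z
  | [], _, _ => ⟨[], by simp, by simp, by simp⟩
  | s :: S, h1, h2 => by
    obtain ⟨S', a1, a2, a3⟩ := strong S (fun s hs => h1 s (List.mem_cons_of_mem _ hs))
      (fun s hs => h2 s (List.mem_cons_of_mem _ hs))
    have k1 := h1 s List.mem_cons_self
    have k2 := h2 s List.mem_cons_self
    have drop : (∀ p ∈ s, ∃ z ∈ Q, p = some z) → ∃ S' : List (Str α),
        (S'.flatMap toL).Sublist (s :: S).flatten ∧
        (∀ t ∈ S', toL t ∈ s :: S ∧ t.1 ∈ Q ∧ t.2.2 ∈ Q) ∧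
        ∀ p ∈ (s :: S).flatten, p ∈ S'.flatMap toL ∨ ∃ z ∈ Q, p = some z := by
      intro hs
      refine ⟨S', a1.trans (by rw [List.flatten_cons]; exact List.sublist_append_right _ _),
        fun t ht => ⟨List.mem_cons_of_mem _ (a2 t ht).1, (a2 t ht).2⟩, fun p hp => ?_⟩
      rw [List.flatten_cons, List.mem_append] at hp
      rcases hp with hp | hp
      · exact Or.inr (hs p hp)
      · exact a3 p hp
    rcases s with _ | ⟨p, s⟩
    · exact drop (by simp)
    rcases List.eq_nil_or_concat s with rfl | ⟨m, q, rfl⟩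
    · exact drop (by simpa using k1)
    obtain ⟨a, ha, rfl⟩ := k1 p rfl
    obtain ⟨b, hb, rfl⟩ := k2 q (by
      rw [List.concat_eq_append, ← List.cons_append, List.getLast?_append]; rfl)
    have e : some a :: m.concat (some b) = toL (a, m, b) := by simp [toL]
    rw [e]
    refine ⟨(a, m, b) :: S', ?_, ?_, ?_⟩
    · rw [List.flatMap_cons, List.flatten_cons]
      exact a1.append_left _
    · intro t ht
      rcases List.mem_cons.1 ht with rfl | ht
      · exact ⟨List.mem_cons_self, ha, hb⟩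
      · exact ⟨List.mem_cons_of_mem _ (a2 t ht).1, (a2 t ht).2⟩
    · intro p hp
      rw [List.flatten_cons, List.mem_append] at hp
      rw [List.flatMap_cons, List.mem_append]
      rcases hp with hp | hp
      · exact Or.inl (Or.inl hp)
      · exact (a3 p hp).imp Or.inr id

theorem weak_inv {Bd : Set α} {S : List (List (Option α))} (h : Weak T Q O S)
    (hb : ∀ z ∈ Q, some z ∈ S.flatten → z ∈ Bd) : ∃ S', Inv T Q O S' Bd Bd := by
  obtain ⟨S', a1, a2, a3⟩ := strong S h.hd h.lt
  have mem : ∀ t ∈ S', ∀ p ∈ toL t, p ∈ S.flatten := fun t ht p hp =>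
    List.mem_flatten.2 ⟨_, (a2 t ht).1, hp⟩
  refine ⟨S', h.nd.sublist a1, fun t ht => h.ch _ (a2 t ht).1, ?_, ?_, ?_, ?_⟩
  · rcases a3 _ h.nn with h' | ⟨z, _, h'⟩
    · exact h'
    · cases h'
  · exact fun t ht => ⟨hb _ (a2 t ht).2.1 (mem t ht _ (mem1 t)),
      hb _ (a2 t ht).2.2 (mem t ht _ (mem2 t))⟩
  · intro u hu
    rw [← h.out u hu]
    refine ⟨fun h' => a1.subset h', fun h' => ?_⟩
    rcases a3 _ h' with h'' | ⟨z, hz, h''⟩
    · exact h''
    · exact absurd (Option.some.inj h'' ▸ hz) hu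
  · exact fun t ht z hz hm => hb z hz (mem t ht _ (by simp [toL, hm]))

theorem trunc (Q : Set α) (x : α) (hx : x ∉ Q) (l : List α) :
    ∃ l1 l2 e, l = l1 ++ l2 ∧ (x :: l1).getLast? = some e ∧ e ∉ Q ∧ ∀ u ∈ l2, u ∈ Q := by
  induction l using List.reverseRecOn with
  | nil => exact ⟨[], [], x, rfl, rfl, hx, by simp⟩
  | append_singleton l a ih =>
    by_cases ha : a ∈ Q
    · obtain ⟨l1, l2, e, rfl, h2, h3, h4⟩ := ih
      refine ⟨l1, l2 ++ [a], e, by simp, h2, h3, ?_⟩
      intro u hu
      rcases List.mem_append.1 hu with hu | hu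
      · exact h4 u hu
      · have : u = a := by simpa using hu
        exact this ▸ ha
    · refine ⟨l ++ [a], [], a, by simp, ?_, ha, by simp⟩
      rw [← List.cons_append, List.getLast?_append]; rfl

end Sound

open Sound in
theorem sound {α : Type} (R : α → α → Prop) (hs : ∀ x y, R x y → R y x) (hi : ∀ x, ¬ R x x)
    (Q Bd A B : Set α) (hBd : ∀ z ∈ Q, ∀ y, y ∉ Q → R z y → z ∈ Bd)
    (h : Mvs R Q (Bd, Bd) (A, B)) (z₁ z₂ : α) (hA : A ⊆ {z₁, z₂}) (hz : R z₁ z₂) :
    Good R Q (A ∪ B) := by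
  intro x l hx nd ch
  obtain ⟨l1, l2, e, rfl, he, heQ, hl2⟩ := trunc Q x hx l
  have nd1 : (x :: l1).Nodup := nd.sublist ((List.sublist_append_left _ _).cons_cons _)
  have ch1 : List.IsChain R (x :: l1) := by
    rw [← List.cons_append] at ch
    exact (List.isChain_append.1 ch).1
  have out1 : ∀ u, u ∉ Q → (u ∈ l1 ↔ u ∈ l1 ++ l2) := by
    intro u hu
    rw [List.mem_append]
    exact ⟨Or.inl, fun h => h.resolve_right fun h' => hu (hl2 u h')⟩
  by_cases hb : ∀ z ∈ l1, z ∈ Q → z ∈ Bd
  · have hg : ∀ p : Set α × Set α, Mvs R Q (Bd, Bd) p → Bd ⊆ p.1 ∪ p.2 := by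
      intro p hp
      induction hp with
      | refl => exact subset_union_left
      | tail _ hm ih => exact ih.trans (grow hm)
    exact ⟨l1, nd1, ch1, out1, fun u hu hq => hg _ h (hb u hu hq)⟩
  push Not at hb
  obtain ⟨z, hzl, hzQ, hzB⟩ := hb
  obtain ⟨P, U, rfl⟩ := List.append_of_mem hzl
  have hT : ∀ z ∈ Q, z ∉ Bd → ∀ p, (RO R x e p (some z) ∨ RO R x e (some z) p) →
      ∃ y ∈ Q, p = some y := by
    intro z hz hzb p hp
    have hp' : RO R x e (some z) p := hp.elim (RO_symm hs x e _ _) id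
    rcases p with _ | y
    · rcases hp' with rfl | rfl
      · exact absurd hz hx
      · exact absurd hz heQ
    · by_contra hy
      exact hzb (hBd z hz y (fun h => hy ⟨y, h, rfl⟩) hp')
  rw [← List.cons_append] at nd1 ch1 he
  obtain ⟨c1, c5, c4⟩ := List.isChain_append.1 ch1
  obtain ⟨c2, c3⟩ := List.isChain_cons.1 c5
  have hU : U.getLast? = some e := by
    rcases U with _ | ⟨a, U⟩
    · rw [List.getLast?_append] at he
      have : z = e := by simpa using he
      exact absurd (this ▸ hzQ) heQ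
    · rw [List.getLast?_append, List.getLast?_cons_cons, List.getLast?_cons] at he
      rw [List.getLast?_cons]
      simpa using he
  have hW : Weak (RO R x e) Q {u | u ∈ (x :: P) ++ z :: U}
      [U.map some ++ none :: (x :: P).map some] := by
    refine ⟨?_, ?_, by simp, ?_, ?_, ?_⟩
    · rw [List.flatten_singleton, List.perm_middle.nodup_iff, List.nodup_cons, ← List.map_append]
      refine ⟨by simp, List.Nodup.map (Option.some_injective _) ?_⟩
      exact List.perm_append_comm.nodup_iff.1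
        (List.nodup_cons.1 (List.perm_middle.nodup_iff.1 nd1)).2
    · intro s hs'
      rw [List.mem_singleton.1 hs', List.isChain_append, List.isChain_cons, chain_map, chain_map]
      refine ⟨c3, ⟨?_, c1⟩, ?_⟩
      · intro p hp
        have : p = some x := by simpa using hp.symm
        rw [this]; exact Or.inl rfl
      · intro p hp q hq
        have hq' : q = none := by simpa using hq.symm
        rw [List.getLast?_map, hU] at hp
        have hp' : p = some e := by simpa using hp.symm
        rw [hp', hq']; exact Or.inr rfl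
    · intro s hs' p hp
      rw [List.mem_singleton.1 hs'] at hp
      rcases U with _ | ⟨a, U⟩
      · simp at hU
      · have hp' : p = some a := by simpa using hp.symm
        exact hT z hzQ hzB p (Or.inr (hp' ▸ c2 a rfl))
    · intro s hs' p hp
      obtain ⟨g, hg⟩ : ∃ g, (x :: P).getLast? = some g := ⟨_, List.getLast?_cons⟩
      rw [List.mem_singleton.1 hs', ← List.singleton_append, ← List.append_assoc,
        List.getLast?_append, List.getLast?_map, hg] at hp
      have hp' : p = some g := by simpa using hp.symm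
      exact hT z hzQ hzB p (Or.inl (hp' ▸ c4 g hg z rfl))
    · intro u hu
      have : u ≠ z := fun e => hu (e ▸ hzQ)
      simp [this]
      tauto
  obtain ⟨S1, w1, w2⟩ := clean hT _ _ rfl hW
  have hI := weak_inv w1 w2
  have hall : ∀ p : Set α × Set α, Mvs R Q (Bd, Bd) p →
      ∃ S, Sound.Inv (RO R x e) Q {u | u ∈ (x :: P) ++ z :: U} S p.1 p.2 := by
    intro p hp
    induction hp with
    | refl => exact hI
    | tail _ hm ih => exact step hs hi hm ih
  obtain ⟨S, hS⟩ := hall _ h
  obtain ⟨l', a1, a2, a3, a4⟩ := final hs hS hA hz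
  refine ⟨l', a1, a2, fun u hu => ?_, a4⟩
  rw [← out1 u hu]
  have := a3 u hu
  have n1 := (List.nodup_cons.1 a1).1
  have n2 := (List.nodup_cons.1 nd1).1
  simp only [List.cons_append, mem_ofPred_eq, List.mem_cons] at this
  by_cases hux : u = x
  · subst hux
    exact ⟨fun h => absurd h n1, fun h => absurd h n2⟩
  · simpa [hux] using this

end Pool.Agent.H742Z.GP
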